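import Pool.Agent.K9h47.JL.Ape
import Pool.Agent.K9h47.JM.Law.Stat

/-! The aperiodic case for functions which may vanish (helper47, after helper42's `JL/Ape`). -/

set_option autoImplicit false

open MeasureTheory Filter Topology Finset

namespace Pool.Agent.K9h47.JM

open Pool.Agent.Results.MP_4a7640_nt.DisplacedCubes (Val X shift seq IsFurstenbergSystem Aperiodic)
open Pool.Agent.K9h47.JL Pool.Agent.K9h47.JL.Ape

lemma F_eq (H : ℕ) (x : X) (α : UnitAddCircle) :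
    Pool.Agent.K9h47.JM.Law.F H x α = FF (fun n => (x n : ℝ)) H α := by
  unfold Pool.Agent.K9h47.JM.Law.F FF
  rw [Pool.Agent.K9h47.JM.Law.S_range]

theorem apeV (wone : S_WONE) (f : ℕ → Val) (μ : Measure X) (hf : MultV f) (ha : Aperiodic f)
    (hμ : IsFurstenbergSystem f μ) (s : ℕ) (l : Fin s) (m : ℤ) (hm : m ≠ 0) :
    Tendsto (fun H : ℕ => ∫ x, ∏ l', co (fun n => (x n : ℝ)) H (Pi.single (M := fun _ => ℤ) l m l') ∂μ) atTop
      (𝓝 0) := by
  classical
  let Ψ : C(Fin s → ℝ, ℝ) := ⟨fun v => ∏ l' ∈ univ.erase l, v l',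
    continuous_finsetProd _ fun i _ => continuous_apply i⟩
  have h := Pool.Agent.K9h47.JM.Law.law hf ha hμ (r := s)
    (fun _ => fun (H : ℕ) (x : X) => (H : ℝ) * ∫ α : UnitAddCircle, ‖Pool.Agent.K9h47.JM.Law.F H x α‖ ^ (2 * 2))
    (fun _ => Pool.Agent.K9h47.JM.Law.strength_mem 2 le_rfl) Ψ (Gr m) (ContinuousMap.const ℝ 1)
  refine h.congr' ?_
  filter_upwards [eventually_ge_atTop 1] with H hH
  congr 1
  funext x
  unfold Pool.Agent.K9h47.JM.Law.E
  rw [int_Gr hm]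
  simp only [sub_zero, ContinuousMap.const_apply, mul_one, F_eq]
  rw [← Finset.mul_prod_erase univ _ (mem_univ l)]
  have e2 : ∏ l' ∈ univ.erase l, co (fun n => (x n : ℝ)) H (Pi.single (M := fun _ => ℤ) l m l') =
      Ψ (fun _ => (H : ℝ) * ∫ α : UnitAddCircle, ‖FF (fun n => (x n : ℝ)) H α‖ ^ (2 * 2)) := by
    show _ = ∏ l' ∈ univ.erase l, ((H : ℝ) * ∫ α : UnitAddCircle, ‖FF (fun n => (x n : ℝ)) H α‖ ^ (2 * 2))
    apply prod_congr rfl
    intro l' hl'
    rw [Pi.single_eq_of_ne (ne_of_mem_erase hl'), co_zero wone _ H hH]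
  rw [e2, Pi.single_eq_same, co_eq wone _ H hH m]
  ring

end Pool.Agent.K9h47.JM
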