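import Pool.Agent.Results.MP_4a7640_nt.DisplacedCubes

/-!
# One displaced vertex: multiplicative functions with values `1`, `0`, `-1` (helper47)

The proof of the starting theorem `DisplacedCubes` does not use that the function has no zeros.
-/

set_option autoImplicit false

namespace Pool.Agent.K9h47.JM

open MeasureTheory Filter Topology Finset

open Pool.Agent.Results.MP_4a7640_nt.DisplacedCubes (Val X shift seq IsFurstenbergSystem Aperiodic cube val_le seq_nat
  mean_int LPer_one aper_f)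

/-- multiplicative functions with values `1`, `0`, `-1` -/
def MultV (f : ℕ → Val) : Prop := ∀ m n : ℕ, 1 ≤ m → 1 ≤ n → Nat.Coprime m n → (f (m * n) : ℝ) = f m * f n

lemma mr_v {f : ℕ → Val} (hf : MultV f) : Pool.Agent.Y956.CB.MR (fun n => (f n : ℝ)) :=
  ⟨fun _ => val_le _, fun m n hm hn hc => hf m n hm hn hc⟩

lemma mult_v {f : ℕ → Val} (hf : MultV f) : Pool.Agent.Y956.CB.Mult1 (fun n => (((f n : ℝ)) : ℂ)) :=
  Pool.Agent.Y956.CM.mr_mult1 (mr_v hf)

/-- `DisplacedCubes` for functions which may vanish (the proof is the same) -/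
theorem disp (f : ℕ → Val) (hf : MultV f) (ha : Aperiodic f) (μ : Measure X) (hμ : IsFurstenbergSystem f μ)
    (k : ℕ) (hk : 1 ≤ k) (A : Finset (Finset (Fin k))) (t₀ : Finset (Fin k)) (a b : ℤ) (hab : a ≠ b) :
    Tendsto (fun H : ℕ => (1 / (H : ℝ) ^ k) * ∑ h : Fin k → Fin H,
      |∫ x, cube A t₀ a b (fun i => (h i : ℕ)) x ∂μ|) atTop (𝓝 0) := by
  classical
  obtain ⟨hprob, N, hN, hlim⟩ := hμ
  set g : Finset (Fin k) → ℕ → ℂ := fun t n => if t ∈ A then (((f n : ℝ)) : ℂ) else 1 with hg
  have hgm : ∀ t, Pool.Agent.Y956.CB.Mult1 (g t) := by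
    intro t
    by_cases ht : t ∈ A
    · have e : g t = fun n => (((f n : ℝ)) : ℂ) := by
        funext n
        simp only [hg, if_pos ht]
      rw [e]
      exact mult_v hf
    · have e : g t = fun _ => 1 := by
        funext n
        simp only [hg, if_neg ht]
      rw [e]
      exact ⟨fun _ => by simp, fun _ _ _ _ _ => by simp⟩
  -- a shift to the right
  set B : ℕ := a.natAbs + b.natAbs with hB
  set a' := ((B : ℤ) + a).toNat with ha'
  set b' := ((B : ℤ) + b).toNat with hb'
  have ea : ((a' : ℕ) : ℤ) = B + a := Int.toNat_of_nonneg (by omega)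
  have eb : ((b' : ℕ) : ℤ) = B + b := Int.toNat_of_nonneg (by omega)
  have hab' : a' ≠ b' := fun h => hab (by omega)
  have hkey : ∀ h : Fin k → ℕ, Pool.Agent.Y956.CB.mc
      (Pool.Agent.Y956.CB.eeLM (Pool.Agent.Y956.CM.lmLM (Pool.Agent.Y956.CM.usq N)
        (Pool.Agent.Y956.CM.usq_le hN))) (Pool.Agent.Y956.CB.vt (fun _ => 1) t₀ g
          (fun n => (f n : ℝ)) 1 a' b' h) = ((∫ x, cube A t₀ a b h x ∂μ : ℝ) : ℂ) := by
    intro h
    have hc : Continuous (cube A t₀ a b h) := by
      unfold cube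
      fun_prop
    have hle : ∀ x : X, |cube A t₀ a b h x| ≤ 1 := by
      intro x
      unfold cube
      rw [abs_mul, abs_prod]
      exact mul_le_one₀ (prod_le_one (fun _ _ => abs_nonneg _) fun _ _ => val_le _) (abs_nonneg _) (val_le _)
    rw [← mean_int hN hlim (cube A t₀ a b h) hc hle]
    have hΦb : Pool.Agent.Y956.CB.BC (fun n : ℕ => ((cube A t₀ a b h (shift (n : ℤ) (seq f)) : ℝ) : ℂ)) :=
      ⟨1, fun n => by rw [Complex.norm_real, Real.norm_eq_abs]; exact hle _⟩
    rw [← Pool.Agent.Y956.CM.mc_shift _ hΦb B]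
    apply Pool.Agent.Y956.CM.mc_congr_large _ _ _ 1
    · intro n hn
      unfold Pool.Agent.Y956.CB.vt cube shift
      rw [one_mul]
      push_cast
      congr 1
      · have e0 : ∏ t ∈ (univ : Finset (Finset (Fin k))).erase t₀, g t (1 * n + b' + ∑ i ∈ t, h i) =
            ∏ t ∈ A.erase t₀, (((f (1 * n + b' + ∑ i ∈ t, h i) : ℝ)) : ℂ) := by
          rw [← prod_subset (erase_subset_erase t₀ (subset_univ A))]
          · apply prod_congr rfl
            intro t ht
            simp only [hg, if_pos (mem_of_mem_erase ht)]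
          · intro t ht ht'
            have hA : t ∉ A := fun h => ht' (mem_erase.2 ⟨(mem_erase.1 ht).1, h⟩)
            simp only [hg, if_neg hA]
        rw [e0]
        apply prod_congr rfl
        intro t _
        have e1 : b + ∑ i ∈ t, (h i : ℤ) + ((n : ℤ) + B) = ((1 * n + b' + ∑ i ∈ t, h i : ℕ) : ℤ) := by
          push_cast
          rw [eb]
          ring
        rw [e1, seq_nat f _ (by omega)]
      · have e1 : a + ∑ i ∈ t₀, (h i : ℤ) + ((n : ℤ) + B) = ((1 * n + a' + ∑ i ∈ t₀, h i : ℕ) : ℤ) := by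
          push_cast
          rw [ea]
          ring
        rw [e1, seq_nat f _ (by omega)]
    · exact Pool.Agent.Y956.CB.vt_BC t₀ (fun t n => (hgm t).1 n) (fun n => val_le _) 1 a' b' h
        ⟨1, fun _ => by simp⟩
    · obtain ⟨C, hC⟩ := hΦb
      exact ⟨C, fun n => hC _⟩
  have h1 := Pool.Agent.Y956.CM.seq_R hN g hgm (fun n => (f n : ℝ)) (mr_v hf) (aper_f ha) k hk 1 le_rfl
    a' b' hab' t₀ (fun t => t) (fun _ => 1) LPer_one (fun h => ((∫ x, cube A t₀ a b h x ∂μ : ℝ) : ℂ)) hkey
  simp only [Complex.norm_real, Real.norm_eq_abs] at h1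
  exact h1

end Pool.Agent.K9h47.JM
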