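import Pool.Agent.K9h47.JL.Stm3
import Pool.Agent.K9h47.JM.Disp

/-!
# Joint law of the local frequencies of the Moebius function: statements (helper47)

The theorem of `Pool/Agent/K9h47/JL` also holds for multiplicative functions with values `1`, `0`, `-1` which do not vanish
at the primes, for instance the Moebius function (problem MP_663568_nt, hard). Two leaves.
-/

set_option autoImplicit false

open MeasureTheory Filter Topology Finset

namespace Pool.Agent.K9h47.JM

open Pool.Agent.Results.MP_4a7640_nt.DisplacedCubes (Val X shift seq IsFurstenbergSystem Aperiodic)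

/-- the Moebius function -/
noncomputable def mob (n : ℕ) : Val :=
  ⟨(ArithmeticFunction.moebius n : ℝ), by
    rcases ArithmeticFunction.moebius_eq_or n with h | h | h <;> simp [h]⟩

/-- LEAF SUB: Furstenberg systems along a subsequence. `X` is compact metrizable; `ProbabilityMeasure X` is compact
(`CompactSpace (ProbabilityMeasure E)`, `Mathlib/MeasureTheory/Measure/Prokhorov.lean`) and metrizable, so sequentially
compact. The logarithmic averages divided by `∑ 1/n` instead of `log N` are integrals over probability measures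
(finite combinations of Dirac measures), and `(∑_{n ≤ N} 1/n) / log N → 1`. -/
def S_SUB : Prop := ∀ (f : ℕ → Val) (N : ℕ → ℕ), Tendsto N atTop atTop →
  ∃ ψ : ℕ → ℕ, StrictMono ψ ∧ ∃ μ : Measure X, IsProbabilityMeasure μ ∧ ∀ φ : X → ℝ, Continuous φ →
    Tendsto (fun j => (1 / Real.log (N (ψ j) : ℝ)) * ∑ n ∈ Icc 1 (N (ψ j)), (1 / (n : ℝ)) * φ (shift (n : ℤ) (seq f)))
      atTop (𝓝 (∫ x, φ x ∂μ))

/-- LEAF MOB: the Moebius function is multiplicative, not zero at the primes, and aperiodic. The last: for `p ≡ 1 (Q)` the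
term of the series in `Aperiodic` is `(1 + 1)/p` (`χ p = 1`), and all terms are nonnegative; `Pool.Agent.K9h47.JL.apq`
(file `Pool/Agent/K9h47/JL/Apq.lean`, with `vin`), second part, gives `∑_{p ∈ Pr i, p ≡ 1 (Q)} log p / 2^i ≥ δ` for all
large `i`, so `∑_{p ∈ Pr i, p ≡ 1} 1/p ≥ δ / (2 (i+1) log 2)`. -/
def S_MOB : Prop := MultV mob ∧ (∀ p : ℕ, p.Prime → (mob p : ℝ) ≠ 0) ∧ Aperiodic mob

end Pool.Agent.K9h47.JM
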