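import Pool.Agent.K9h47.JL.Tao
import Pool.Agent.K9h47.JM.Disp

/-!
# The dilation property for multiplicative functions which do not vanish at the primes (helper47, after helper60's `JL/Tao`)
-/

set_option autoImplicit false

open MeasureTheory Filter Topology Finset

namespace Pool.Agent.K9h47.JM

open Pool.Agent.Results.MP_4a7640_nt.DisplacedCubes (Val X shift seq IsFurstenbergSystem val_le seq_nat)
open Pool.Agent.TH112.BL (LM Bd)
open Pool.Agent.Y956.CB (eeLM)
open Pool.Agent.Y956.CM (lmLM usq usq_le eeLM_lm lm_usq)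
open Pool.Agent.K9h47.JL

theorem taoV (f : ℕ → Val) (μ : Measure X) (hf : MultV f) (hf1 : ∀ p : ℕ, p.Prime → (f p : ℝ) ≠ 0)
    (hμ : IsFurstenbergSystem f μ) : Dil μ (fun (n : ℤ) (x : X) => (x n : ℝ)) := by
  classical
  obtain ⟨hprob, N, hN, hlim⟩ := hμ
  intro D B ε hε i₁
  let _ : Fintype Val := (Set.Finite.fintype (by simp : ({-1, 0, 1} : Set ℝ).Finite))
  have : Nonempty Val := ⟨⟨0, by simp⟩⟩
  obtain ⟨i₂, hi₂⟩ : ∃ i₂ : ℕ, ∀ i ≥ i₂, 12 * (D : ℝ) / 2 ^ i ≤ ε / 2 := by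
    have h1 : Tendsto (fun i : ℕ => 12 * (D : ℝ) * (1 / 2 : ℝ) ^ i) atTop (𝓝 (12 * D * 0)) :=
      (tendsto_pow_atTop_nhds_zero_of_lt_one (by norm_num) (by norm_num)).const_mul _
    rw [mul_zero] at h1
    obtain ⟨i₂, h2⟩ := eventually_atTop.1 (h1.eventually_le_const (half_pos hε))
    refine ⟨i₂, fun i hi => ?_⟩
    have := h2 i hi
    rw [one_div, inv_pow, ← div_eq_mul_inv] at this
    exact this
  set m := eeLM (lmLM (usq N) (usq_le hN)) with hm
  obtain ⟨i, hi, -, hdec⟩ := Pool.Agent.Y956.CB.dec1L (lmLM (usq N) (usq_le hN)) Val f (4 * B + 1) (ε / 20)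
    (by positivity) (max i₁ i₂) (fun _ => False) 0 (fun i0 J => by simp)
  refine ⟨i, (le_max_left _ _).trans hi, fun d hd h hh => ?_⟩
  have hnn : ∀ l, 0 ≤ h l + B := fun l => by
    have := (abs_le.1 (hh l)).1
    linarith
  have hbl : ∀ l, (((h l + B).toNat : ℕ) : ℤ) = h l + B := fun l => Int.toNat_of_nonneg (hnn l)
  have hble : ∀ l, (h l + B).toNat ≤ 2 * B := fun l => by
    have h1 := (abs_le.1 (hh l)).2
    have h2 := hbl l
    omega
  have hval : ∀ n : ℕ, n.Prime → (f n : ℝ) ^ 2 = 1 := by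
    intro n hn
    have h0 := hf1 n hn
    have h := (f n).2
    simp only [Set.mem_insert_iff, Set.mem_singleton_iff] at h
    rcases h with h | h | h
    · rw [h]; norm_num
    · exact absurd h h0
    · rw [h]; norm_num
  have hcore := Pool.Agent.K9h60.TA.core m i D B (4 * B + 1) (ε / 20) (fun n => (f n : ℝ)) f
    (fun n => val_le _) (fun n n' h => by simp only [h]) (fun p hp => hval p hp)
    (fun p n hp hn hpn => hf p n hp.one_lt.le hn ((Nat.Prime.coprime_iff_not_dvd hp).2 hpn))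
    hdec (by omega) d hd (fun l => (h l + B).toNat) hble
  have h1 := hi₂ i ((le_max_right _ _).trans hi)
  have h2 : ∀ p : ℕ, (m.m fun n => ∏ l, (f (n + p * (h l + B).toNat) : ℝ)) =
      ∫ x : X, ∏ l, (x (p * h l) : ℝ) ∂μ := by
    intro p
    exact corr_mean hN hlim (fun l => (p : ℤ) * h l) (p * B) (fun l => p * (h l + B).toNat) (fun l => by
      push_cast
      rw [Int.toNat_of_nonneg (hnn l)]
      ring)
  have h3 : (m.m fun n => ∏ l, (f (n + (h l + B).toNat) : ℝ)) = ∫ x : X, ∏ l, (x (h l) : ℝ) ∂μ :=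
    corr_mean hN hlim h B (fun l => (h l + B).toNat) hbl
  have h4 : ∑ p ∈ Pr i, Real.log p / 2 ^ i *
      |∫ x : X, ∏ l, (x (p * h l) : ℝ) ∂μ - ∫ x : X, ∏ l, (x (h l) : ℝ) ∂μ| ≤
      10 * (ε / 20) + 12 * D / 2 ^ i := by
    simp only [← h2, ← h3]
    exact hcore
  refine h4.trans ?_
  linarith

end Pool.Agent.K9h47.JM
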