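import Pool.Agent.K9h47.JL.Fin
import Pool.Agent.K9h47.JM.Stm
import Pool.Agent.K9h47.JM.Tao
import Pool.Agent.K9h47.JM.Ape

/-!
# Joint law of the local frequencies, functions which do not vanish at the primes: assembly (helper47)
-/

set_option autoImplicit false

open MeasureTheory Filter Topology Finset

namespace Pool.Agent.K9h47.JM

open Pool.Agent.Results.MP_4a7640_nt.DisplacedCubes (Val X shift seq IsFurstenbergSystem Aperiodic seq_nat val_le)
open Pool.Agent.K9h47.JL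

/-- the joint law -/
theorem finV (hrn : S_RN) (hlimg : S_LIMG) (hdilc : S_DILC) (hwone : S_WONE) (hwin : S_WIN) (hvin : S_VIN)
    (hapq : S_APQ) (hwt : S_WT) (hpdw : S_PDW) (hlevy : S_LEVY) (htor : S_TOR) (hntv : S_NTV)
    (halg : S_ALG) (hhaar : S_HAAR) (hdec : S_DEC) (hden : S_DEN) (hrow : S_ROW)
    (f : ℕ → Val) (hf : MultV f) (hf1 : ∀ p : ℕ, p.Prime → (f p : ℝ) ≠ 0) (ha : Aperiodic f)
    (μ : Measure X) (hμ : IsFurstenbergSystem f μ) (s : ℕ) :
    ∃ w : Dat s → ℝ, (∀ i, 0 ≤ w i) ∧ Summable w ∧ (∀ i, w i ≠ 0 → ∀ l, ∃ j, i.1 l j ≠ 0) ∧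
      ∀ G : C(TT s, ℝ), Tendsto (fun H : ℕ => ∫ x, (∫ α : TT s, G α *
        ∏ l, ((H : ℝ) * ‖FF (fun n => (x n : ℝ)) H (α l)‖ ^ 4)) ∂μ) atTop
        (𝓝 (∑' i, w i * ∫ β : TT s, G (pt i β))) := by
  have hS := fin_stat hμ
  obtain ⟨r, hC⟩ := hrn μ _ _ hS
  obtain ⟨A, g, hL⟩ := hlimg μ _ _ r hS hC
  have hD := taoV f μ hf hf1 hμ
  obtain ⟨ν, h1, h2, h3, h4⟩ := fin_levy hwone hwin (fun a b _ _ μ T x r A g hS hC hL s k m =>
    (hpdw a b μ T x r A g hS hC hL s k).1 m) hlevy htor hS hC hL s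
  have hfin : IsFiniteMeasure ν := ⟨h1.trans_lt ENNReal.one_lt_top⟩
  have h5 := hntv hvin hapq hwt s ν hfin (fun k => by rw [h3 k, Complex.ofReal_im]) (fun k ε hε i₁ => by
    obtain ⟨i, hi, h⟩ := hdilc μ _ _ r A g hS hC hL hD s k ε hε i₁
    refine ⟨i, hi, le_trans (sum_le_sum fun p hp => ?_) h⟩
    refine mul_le_mul_of_nonneg_left ?_ (by
      have : 0 ≤ Real.log p := Real.log_natCast_nonneg p
      positivity)
    rw [h3, h3, ← Complex.ofReal_sub, Complex.norm_real, Real.norm_eq_abs, ← mul_sub, abs_mul]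
    refine mul_le_of_le_one_left (abs_nonneg _) ?_
    rw [abs_of_nonneg (by positivity)]
    exact pow_le_one₀ (by norm_num) (by norm_num))
  obtain ⟨w, hw0, hws, hwk⟩ := hdec halg hhaar s ν hfin h5
  refine ⟨w, hw0, hws, fun i hi l => ?_, fun G => ?_⟩
  · refine hrow hhaar s w l hw0 hws (fun m hm => ?_) i hi
    rw [← hwk, h3]
    have h6 := apeV hwone f μ hf ha hμ s l m hm
    have h7 := h4 (Pi.single l m)
    have h8 := tendsto_nhds_unique h7 h6
    rw [h8]
    simp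
  · rw [← hden s ν hfin w hw0 hws hwk G]
    exact h2 G

/-- the window statistic -/
noncomputable def phi {s : ℕ} (G : C(TT s, ℝ)) (H : ℕ) (x : X) : ℝ :=
  ∫ α : TT s, G α * ∏ l, ((H : ℝ) * ‖FF (fun n => (x n : ℝ)) H (α l)‖ ^ 4)

lemma phi_cont {s : ℕ} (G : C(TT s, ℝ)) (H : ℕ) : Continuous (phi G H) := by
  have h1 : Continuous (fun q : X × TT s => G q.2 * ∏ l, ((H : ℝ) * ‖FF (fun n => (q.1 n : ℝ)) H (q.2 l)‖ ^ 4)) := by
    refine (G.continuous.comp continuous_snd).mul (continuous_finsetProd _ fun l _ => continuous_const.mul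
      (Continuous.pow (Continuous.norm ?_) 4))
    unfold FF
    refine Continuous.div_const (continuous_finsetSum _ fun h _ => ?_) _
    have hl : Continuous (fun q : X × TT s => q.2 l) := by fun_prop
    have hx : Continuous (fun q : X × TT s => ((q.1 (h : ℤ) : ℝ) : ℂ)) := by fun_prop
    exact hx.mul ((fourier (h : ℤ)).continuous.comp hl)
  have h3 := continuous_parametric_integral_of_continuous (X := X) (Y := TT s)
    (μ := (volume : Measure (TT s))) (f := fun x α => G α *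
      ∏ l, ((H : ℝ) * ‖FF (fun n => (x n : ℝ)) H (α l)‖ ^ 4)) h1 (s := Set.univ) isCompact_univ
  simp only [Measure.restrict_univ] at h3
  exact h3

/-- at the shifts of the sequence of values -/
lemma FF_seq (f : ℕ → Val) (H n : ℕ) (hn : 1 ≤ n) (α : UnitAddCircle) :
    FF (fun k => ((shift (n : ℤ) (seq f)) k : ℝ)) H α =
      (∑ h ∈ range H, (((f (n + h) : ℝ) : ℂ)) * fourier (h : ℤ) α) / H := by
  unfold FF
  congr 1
  refine sum_congr rfl fun h _ => ?_
  have e : shift (n : ℤ) (seq f) (h : ℤ) = f (n + h) := by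
    unfold shift
    rw [show (h : ℤ) + (n : ℤ) = ((n + h : ℕ) : ℤ) by push_cast; ring]
    exact seq_nat f _ (by omega)
  show (((shift (n : ℤ) (seq f) (h : ℤ) : ℝ)) : ℂ) * _ = _
  rw [e]

end Pool.Agent.K9h47.JM
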