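import Pool.Agent.K9h47.JM.Stm
import Pool.Agent.K9h47.JL.Apq
import Pool.Agent.K9h47.JL.Vin

/-!
# Leaf MOB: the Moebius function is multiplicative, not zero at the primes, and aperiodic
-/

set_option autoImplicit false

open MeasureTheory Filter Topology Finset

namespace Pool.Agent.K9h47.JM

open Pool.Agent.Results.MP_4a7640_nt.DisplacedCubes (Val X shift seq Aperiodic)

namespace Mob_

theorem mob_val (n : ℕ) : (mob n : ℝ) = (ArithmeticFunction.moebius n : ℝ) := rfl

theorem prime_val (p : ℕ) (hp : p.Prime) : (mob p : ℝ) = -1 := by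
  rw [mob_val, ArithmeticFunction.moebius_apply_prime hp]
  norm_num

/-- a nonnegative function with large sums over the dyadic blocks of primes is not summable -/
theorem not_summable_of_blocks (F : ℕ → ℝ) (hF : ∀ n, 0 ≤ F n) (c : ℝ) (hc : 0 < c)
    (h : ∀ᶠ i : ℕ in atTop, c / ((i : ℝ) + 1) ≤ ∑ p ∈ JL.Pr i, F p) : ¬ Summable F := by
  classical
  intro hs
  have hdisj : ∀ K : ℕ, Set.PairwiseDisjoint ((range K : Finset ℕ) : Set ℕ) JL.Pr := by
    intro K i _ j _ hij
    have key : ∀ i j : ℕ, i < j → Disjoint (JL.Pr i) (JL.Pr j) := by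
      intro i j hlt
      rw [Finset.disjoint_left]
      intro p hp hp'
      unfold JL.Pr at hp hp'
      rw [mem_filter, mem_Ioc] at hp hp'
      have h1 : 2 ^ (i + 1) ≤ 2 ^ j := Nat.pow_le_pow_right (by norm_num) hlt
      omega
    rcases lt_or_gt_of_ne hij with h1 | h1
    · exact key i j h1
    · exact (key j i h1).symm
  have hb : Summable fun i : ℕ => ∑ p ∈ JL.Pr i, F p := by
    apply summable_of_sum_range_le (c := ∑' n, F n)
    · intro i
      exact sum_nonneg fun p _ => hF p
    · intro K
      rw [← sum_biUnion (hdisj K)]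
      exact hs.sum_le_tsum _ fun p _ => hF p
  have h1 : Summable fun i : ℕ => c / ((i : ℝ) + 1) := by
    refine Summable.of_norm_bounded_eventually_nat hb ?_
    filter_upwards [h] with i hi
    rw [Real.norm_eq_abs, abs_of_nonneg (by positivity)]
    exact hi
  have h2 : Summable fun i : ℕ => 1 / ((i : ℝ)) := by
    rw [← summable_nat_add_iff 1]
    have h3 := h1.mul_left c⁻¹
    refine h3.congr fun i => ?_
    push_cast
    field_simp
  exact Real.not_summable_one_div_natCast h2

theorem aper (hap : ∀ q : ℕ, 1 ≤ q → ∃ δ : ℝ, 0 < δ ∧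
    ∀ᶠ i : ℕ in atTop, δ ≤ ∑ p ∈ (JL.Pr i).filter (fun p => p % q = 1 % q), Real.log p / 2 ^ i) :
    Aperiodic mob := by
  classical
  intro Q hQ χ hs
  obtain ⟨δ, hδ, hev⟩ := hap Q hQ
  set F : ℕ → ℝ := fun p => if p.Prime ∧ p % Q = 1 % Q then 2 / (p : ℝ) else 0 with hF
  have hF0 : ∀ p, 0 ≤ F p := by
    intro p
    rw [hF]
    simp only
    split_ifs <;> positivity
  have hle : ∀ p, F p ≤ if p.Prime then
      (1 - (((mob p : ℝ) : ℂ) * (starRingEnd ℂ) (χ (p : ZMod Q))).re) / (p : ℝ) else 0 := by
    intro p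
    by_cases hp : p.Prime
    · have hp0 : (0 : ℝ) < p := by exact_mod_cast hp.pos
      have e1 : (1 - (((mob p : ℝ) : ℂ) * (starRingEnd ℂ) (χ (p : ZMod Q))).re) =
          1 + (χ (p : ZMod Q)).re := by
        rw [prime_val p hp]
        simp
      rw [if_pos hp, e1]
      by_cases h1 : p % Q = 1 % Q
      · have h2 : ((p : ℕ) : ZMod Q) = 1 := by
          have := (ZMod.natCast_eq_natCast_iff' p 1 Q).2 h1
          rw [this, Nat.cast_one]
        have e2 : F p = 2 / (p : ℝ) := by
          rw [hF]
          simp only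
          rw [if_pos ⟨hp, h1⟩]
        rw [e2, h2, map_one]
        norm_num
      · have e2 : F p = 0 := by
          rw [hF]
          simp only
          rw [if_neg fun h => h1 h.2]
        rw [e2]
        have h3 : -1 ≤ (χ (p : ZMod Q)).re := by
          have h4 := Complex.abs_re_le_norm (χ (p : ZMod Q))
          have h5 := DirichletCharacter.norm_le_one χ (p : ZMod Q)
          have h6 := neg_abs_le (χ (p : ZMod Q)).re
          linarith
        apply div_nonneg _ hp0.le
        linarith
    · have e2 : F p = 0 := by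
        rw [hF]
        simp only
        rw [if_neg fun h => hp h.1]
      rw [if_neg hp, e2]
  have hFs : Summable F := Summable.of_nonneg_of_le hF0 hle hs
  refine not_summable_of_blocks F hF0 δ hδ ?_ hFs
  filter_upwards [hev] with i hi
  have hi0 : (0 : ℝ) < (i : ℝ) + 1 := by positivity
  rw [div_le_iff₀ hi0]
  refine hi.trans ?_
  rw [sum_mul]
  calc ∑ p ∈ (JL.Pr i).filter (fun p => p % Q = 1 % Q), Real.log p / 2 ^ i
      ≤ ∑ p ∈ (JL.Pr i).filter (fun p => p % Q = 1 % Q), F p * ((i : ℝ) + 1) := by
        apply sum_le_sum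
        intro p hp
        rw [mem_filter] at hp
        obtain ⟨hp1, hp2⟩ := hp
        unfold JL.Pr at hp1
        rw [mem_filter, mem_Ioc] at hp1
        obtain ⟨⟨h1, h2⟩, h3⟩ := hp1
        have hp0 : (0 : ℝ) < p := by exact_mod_cast h3.pos
        have e2 : F p = 2 / (p : ℝ) := by
          rw [hF]
          simp only
          rw [if_pos ⟨h3, hp2⟩]
        rw [e2]
        have h4 : (p : ℝ) ≤ 2 ^ (i + 1) := by exact_mod_cast h2
        have h5 : Real.log p ≤ (i : ℝ) + 1 := by
          calc Real.log p ≤ Real.log ((2 : ℝ) ^ (i + 1)) := Real.log_le_log hp0 h4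
            _ = ((i : ℝ) + 1) * Real.log 2 := by
                rw [Real.log_pow]
                push_cast
                ring
            _ ≤ ((i : ℝ) + 1) * 1 := by
                apply mul_le_mul_of_nonneg_left _ hi0.le
                have := Real.log_two_lt_d9
                linarith
            _ = _ := mul_one _
        have h6 : (1 : ℝ) / 2 ^ i ≤ 2 / (p : ℝ) := by
          rw [div_le_div_iff₀ (by positivity) hp0]
          calc 1 * (p : ℝ) = p := one_mul _
            _ ≤ 2 ^ (i + 1) := h4
            _ = 2 * 2 ^ i := by rw [pow_succ]; ring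
        calc Real.log p / 2 ^ i = 1 / 2 ^ i * Real.log p := by ring
          _ ≤ 2 / (p : ℝ) * ((i : ℝ) + 1) := by
              apply mul_le_mul h6 h5 (Real.log_nonneg (by exact_mod_cast h3.one_le)) (by positivity)
    _ ≤ ∑ p ∈ JL.Pr i, F p * ((i : ℝ) + 1) := by
        apply sum_le_sum_of_subset_of_nonneg (filter_subset _ _)
        intro p _ _
        exact mul_nonneg (hF0 p) hi0.le

end Mob_

/-- **MOB** -/
theorem mob_ok : S_MOB := by
  refine ⟨?_, ?_, ?_⟩
  · intro m n _ _ h
    rw [Mob_.mob_val, Mob_.mob_val, Mob_.mob_val,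
      ArithmeticFunction.isMultiplicative_moebius.map_mul_of_coprime h]
    push_cast
    rfl
  · intro p hp
    rw [Mob_.prime_val p hp]
    norm_num
  · exact Mob_.aper fun q hq => (JL.apq JL.vin q hq).2

end Pool.Agent.K9h47.JM
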