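import Mathlib

/-!
# Limits of logarithmic averages along a subsequence (helper14, leaf SUB of helper47)
-/

set_option autoImplicit false

open MeasureTheory Filter Topology Finset

namespace Pool.Agent.K9h47.JM

theorem sub_harm (K : ℕ) : (∑ n ∈ Icc 1 K, (1 / (n : ℝ))) = ((harmonic K : ℚ) : ℝ) := by
  rw [harmonic_eq_sum_Icc]
  push_cast
  simp

theorem sub_ratio : Tendsto (fun K : ℕ => (∑ n ∈ Icc 1 K, (1 / (n : ℝ))) / Real.log K) atTop (𝓝 1) := by
  have h1 := Real.tendsto_harmonic_sub_log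
  have h2 : Tendsto (fun K : ℕ => Real.log K) atTop atTop :=
    Real.tendsto_log_atTop.comp tendsto_natCast_atTop_atTop
  have h3 := h1.div_atTop h2
  have h4 := h3.add_const 1
  rw [zero_add] at h4
  refine h4.congr' ?_
  filter_upwards [h2.eventually_gt_atTop 0] with K hK
  rw [sub_harm]
  field_simp
  ring

theorem sub_gen {E : Type*} [TopologicalSpace E] [CompactSpace E] [TopologicalSpace.MetrizableSpace E]
    [MeasurableSpace E] [BorelSpace E] (x : ℕ → E) (N : ℕ → ℕ) (hN : Tendsto N atTop atTop) :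
    ∃ ψ : ℕ → ℕ, StrictMono ψ ∧ ∃ μ : Measure E, IsProbabilityMeasure μ ∧ ∀ φ : E → ℝ, Continuous φ →
      Tendsto (fun j => (1 / Real.log (N (ψ j) : ℝ)) *
        ∑ n ∈ Icc 1 (N (ψ j)), (1 / (n : ℝ)) * φ (x n)) atTop (𝓝 (∫ x, φ x ∂μ)) := by
  classical
  have hS : ∀ K : ℕ, 0 < ∑ n ∈ Icc 1 (max K 1), (1 / (n : ℝ)) := by
    intro K
    apply sum_pos
    · intro n hn
      have : 1 ≤ n := (mem_Icc.1 hn).1
      positivity
    · exact ⟨1, mem_Icc.2 ⟨le_rfl, le_max_right _ _⟩⟩
  set w : ℕ → ℕ → ℝ := fun K n => (1 / (n : ℝ)) / ∑ n ∈ Icc 1 (max K 1), (1 / (n : ℝ)) with hw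
  have hw0 : ∀ K n, 0 ≤ w K n := by
    intro K n
    have := hS K
    simp only [hw]
    positivity
  have hprob : ∀ K : ℕ, IsProbabilityMeasure
      (∑ n ∈ Icc 1 (max K 1), ENNReal.ofReal (w K n) • Measure.dirac (x n)) := by
    intro K
    constructor
    rw [Measure.finsetSum_apply]
    simp only [Measure.smul_apply, measure_univ, smul_eq_mul, mul_one]
    rw [← ENNReal.ofReal_sum_of_nonneg fun n _ => hw0 K n]
    simp only [hw]
    rw [← sum_div, div_self (hS K).ne', ENNReal.ofReal_one]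
  set P : ℕ → ProbabilityMeasure E := fun K =>
    ⟨∑ n ∈ Icc 1 (max K 1), ENNReal.ofReal (w K n) • Measure.dirac (x n), hprob K⟩ with hP
  have hint : ∀ (K : ℕ) (φ : E → ℝ), Continuous φ → ∫ e, φ e ∂(P K : Measure E) =
      ∑ n ∈ Icc 1 (max K 1), w K n * φ (x n) := by
    intro K φ hφ
    have e : (P K : Measure E) = ∑ n ∈ Icc 1 (max K 1), ENNReal.ofReal (w K n) • Measure.dirac (x n) := rfl
    rw [e, integral_finsetSum_measure]
    · apply sum_congr rfl
      intro n _
      rw [integral_smul_measure, integral_dirac, ENNReal.toReal_ofReal (hw0 K n), smul_eq_mul]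
    · intro n _
      apply Integrable.smul_measure _ ENNReal.ofReal_ne_top
      exact (BoundedContinuousFunction.mkOfCompact ⟨φ, hφ⟩).integrable _
  obtain ⟨μ, ψ, hψ, hlim⟩ := CompactSpace.tendsto_subseq fun j => P (N j)
  refine ⟨ψ, hψ, μ, inferInstance, ?_⟩
  intro φ hφ
  have h1 := (ProbabilityMeasure.tendsto_iff_forall_integral_tendsto.1 hlim)
    (BoundedContinuousFunction.mkOfCompact ⟨φ, hφ⟩)
  have h1' : Tendsto (fun j => ∫ e, φ e ∂(P (N (ψ j)) : Measure E)) atTop (𝓝 (∫ e, φ e ∂(μ : Measure E))) := h1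
  have hNψ : Tendsto (fun j => N (ψ j)) atTop atTop := hN.comp hψ.tendsto_atTop
  have h2 := (sub_ratio.comp hNψ).mul h1'
  rw [one_mul] at h2
  refine h2.congr' ?_
  filter_upwards [hNψ.eventually_ge_atTop 1] with j hj
  simp only [Function.comp]
  rw [hint _ φ hφ, max_eq_left hj, mul_sum, mul_sum]
  apply sum_congr rfl
  intro n _
  have h3 := hS (N (ψ j))
  rw [max_eq_left hj] at h3
  simp only [hw]
  rw [max_eq_left hj]
  field_simp

end Pool.Agent.K9h47.JM
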