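import Pool.Agent.K9h47.JM.Stm
import Pool.Agent.K9h47.JM.Sub0

/-!
# Leaf SUB (helper14)
-/

set_option autoImplicit false

open MeasureTheory Filter Topology Finset

namespace Pool.Agent.K9h47.JM

open Pool.Agent.Results.MP_4a7640_nt.DisplacedCubes (Val X shift seq)

theorem sub : S_SUB := by
  intro f N hN
  have : Finite Val := Set.Finite.to_subtype (by simp)
  exact sub_gen (fun n => shift (n : ℤ) (seq f)) N hN

end Pool.Agent.K9h47.JM
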